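import Pool.Agent.K3h30.RS.Stm

/-!
# The density of the ideals prime to a finite set of prime ideals
-/

set_option autoImplicit false

open NumberField IsDedekindDomain Filter Topology

noncomputable section

namespace Pool.Agent.K3h33.RS

open Pool.Agent.K3h30.RS

variable {F : Type} [Field F] [NumberField F]

/-- the nonzero ideals of norm at most `X` prime to `M` -/
def Ss (M : Finset (HeightOneSpectrum (𝓞 F))) (X : ℕ) : Set (Ideal (𝓞 F)) :=
  {a | a ≠ ⊥ ∧ Ideal.absNorm a ≤ X ∧ ∀ v ∈ M, ¬ v.asIdeal ∣ a}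

lemma Ss_fin (M : Finset (HeightOneSpectrum (𝓞 F))) (X : ℕ) : (Ss M X).Finite :=
  (Ideal.finite_setOfPred_absNorm_le X).subset fun _ ha => ha.2.1

lemma norm_two (v : HeightOneSpectrum (𝓞 F)) : 2 ≤ Ideal.absNorm v.asIdeal := by
  have h0 : Ideal.absNorm v.asIdeal ≠ 0 := by
    rw [Ne, Ideal.absNorm_eq_zero_iff]
    exact v.ne_bot
  have h1 : Ideal.absNorm v.asIdeal ≠ 1 := by
    rw [Ne, Ideal.absNorm_eq_one_iff]
    exact v.isPrime.ne_top
  omega

lemma not_dvd_of_ne {u v : HeightOneSpectrum (𝓞 F)} (h : u ≠ v) : ¬ u.asIdeal ∣ v.asIdeal := by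
  intro hd
  apply h
  have h1 : v.asIdeal ≤ u.asIdeal := Ideal.le_of_dvd hd
  have h2 := v.isMaximal.eq_of_le u.isPrime.ne_top h1
  exact HeightOneSpectrum.ext h2.symm

lemma mem_mul_iff {M : Finset (HeightOneSpectrum (𝓞 F))} {v : HeightOneSpectrum (𝓞 F)}
    (hv : v ∉ M) (X : ℕ) (b : Ideal (𝓞 F)) :
    v.asIdeal * b ∈ Ss M X ↔ b ∈ Ss M (X / Ideal.absNorm v.asIdeal) := by
  have h2 := norm_two v
  have h0 : v.asIdeal ≠ ⊥ := v.ne_bot
  unfold Ss
  simp only [Set.mem_ofPred_eq]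
  refine and_congr ?_ (and_congr ?_ ?_)
  · rw [Ne, Ne, ← Ideal.zero_eq_bot, mul_eq_zero, not_or]
    exact ⟨fun h => h.2, fun h => ⟨h0, h⟩⟩
  · rw [map_mul, Nat.le_div_iff_mul_le (by omega), mul_comm]
  · refine forall₂_congr fun u hu => not_congr ?_
    have hp : Prime u.asIdeal := u.prime
    rw [hp.dvd_mul]
    constructor
    · rintro (h | h)
      · exact absurd h (not_dvd_of_ne (by rintro rfl; exact hv hu))
      · exact h
    · exact Or.inr

open Classical in
lemma count_step {M : Finset (HeightOneSpectrum (𝓞 F))} {v : HeightOneSpectrum (𝓞 F)}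
    (hv : v ∉ M) (X : ℕ) :
    (Ss M X).ncard = (Ss (insert v M) X).ncard + (Ss M (X / Ideal.absNorm v.asIdeal)).ncard := by
  have e1 : Ss M X = Ss (insert v M) X ∪
      (fun b => v.asIdeal * b) '' Ss M (X / Ideal.absNorm v.asIdeal) := by
    ext a
    constructor
    · intro ha
      by_cases hd : v.asIdeal ∣ a
      · obtain ⟨b, rfl⟩ := hd
        exact Or.inr ⟨b, (mem_mul_iff hv X b).1 ha, rfl⟩
      · refine Or.inl ⟨ha.1, ha.2.1, fun u hu => ?_⟩
        rcases Finset.mem_insert.1 hu with rfl | hu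
        · exact hd
        · exact ha.2.2 u hu
    · rintro (ha | ⟨b, hb, rfl⟩)
      · exact ⟨ha.1, ha.2.1, fun u hu => ha.2.2 u (Finset.mem_insert_of_mem hu)⟩
      · exact (mem_mul_iff hv X b).2 hb
  have e2 : Disjoint (Ss (insert v M) X)
      ((fun b => v.asIdeal * b) '' Ss M (X / Ideal.absNorm v.asIdeal)) := by
    rw [Set.disjoint_left]
    rintro a ha ⟨b, _, rfl⟩
    exact ha.2.2 v (Finset.mem_insert_self _ _) (dvd_mul_right _ _)
  have e3 : Function.Injective (fun b : Ideal (𝓞 F) => v.asIdeal * b) := by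
    intro b c hbc
    have h0 : v.asIdeal ≠ 0 := v.ne_bot
    exact mul_left_cancel₀ h0 hbc
  rw [e1, Set.ncard_union_eq e2 (Ss_fin _ _) ((Ss_fin _ _).image _),
    Set.ncard_image_of_injective _ e3]

lemma lim_div {u : ℕ → ℝ} {L : ℝ} (q : ℕ) (hq : 2 ≤ q)
    (h : Tendsto (fun X : ℕ => u X / X) atTop (𝓝 L)) :
    Tendsto (fun X : ℕ => u (X / q) / X) atTop (𝓝 (L * (q : ℝ)⁻¹)) := by
  have h1 : Tendsto (fun X : ℕ => X / q) atTop atTop := Nat.tendsto_div_const_atTop (by omega)
  have h2 : Tendsto (fun X : ℕ => (((X / q : ℕ) : ℝ)) / X) atTop (𝓝 ((q : ℝ)⁻¹)) := by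
    have h3 := (tendsto_nat_floor_mul_div_atTop (R := ℝ) (a := (q : ℝ)⁻¹) (by positivity)).comp
      tendsto_natCast_atTop_atTop
    refine h3.congr fun X => ?_
    simp only [Function.comp_apply]
    rw [show (q : ℝ)⁻¹ * (X : ℝ) = (X : ℝ) / q by rw [inv_mul_eq_div], Nat.floor_div_eq_div]
  have h4 := (h.comp h1).mul h2
  refine h4.congr' ?_
  filter_upwards [h1.eventually_ge_atTop 1] with X hX
  simp only [Function.comp_apply]
  have h5 : ((X / q : ℕ) : ℝ) ≠ 0 := by
    have : 0 < X / q := hX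
    positivity
  field_simp

lemma sieve_aux (F : Type) [Field F] [NumberField F] : ∃ c : ℝ, 0 < c ∧
    ∀ M : Finset (HeightOneSpectrum (𝓞 F)),
      Tendsto (fun X : ℕ => ((Ss M X).ncard : ℝ) / X) atTop
        (𝓝 (c * ∏ v ∈ M, (1 - ((Ideal.absNorm v.asIdeal : ℝ))⁻¹))) := by
  classical
  refine ⟨(2 ^ InfinitePlace.nrRealPlaces F * (2 * Real.pi) ^ InfinitePlace.nrComplexPlaces F *
    Units.regulator F * classNumber F) / (Units.torsionOrder F * Real.sqrt |(discr F : ℝ)|),
    ?_, ?_⟩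
  · have h1 : 0 < Units.regulator F := Units.regulator_pos F
    have h2 : (0 : ℝ) < classNumber F := by exact_mod_cast Fintype.card_pos
    have h3 : (0 : ℝ) < Units.torsionOrder F := by exact_mod_cast Units.torsionOrder_pos F
    have h4 : (0 : ℝ) < |(discr F : ℝ)| := by
      rw [abs_pos]
      exact_mod_cast discr_ne_zero F
    positivity
  · intro M
    induction M using Finset.induction_on with
    | empty =>
      rw [Finset.prod_empty, mul_one]
      have h1 := (NumberField.Ideal.tendsto_norm_le_div_atTop₀ F).comp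
        (tendsto_natCast_atTop_atTop (R := ℝ))
      refine h1.congr fun X => ?_
      simp only [Function.comp_apply]
      congr 2
      rw [← Nat.card_coe_set_eq]
      refine Nat.card_congr ?_
      refine ((Equiv.subtypeSubtypeEquivSubtypeInter (fun I : Ideal (𝓞 F) =>
        I ∈ nonZeroDivisors (Ideal (𝓞 F))) (fun I : Ideal (𝓞 F) =>
          (Ideal.absNorm I : ℝ) ≤ X)).trans (Equiv.subtypeEquivRight fun I => ?_))
      unfold Ss
      simp only [mem_nonZeroDivisors_iff_ne_zero, Finset.notMem_empty, false_implies, implies_true,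
        and_true, Set.mem_ofPred_eq, Nat.cast_le]
      rfl
    | insert v M hv ih =>
      have h1 := lim_div (u := fun X => ((Ss M X).ncard : ℝ)) (Ideal.absNorm v.asIdeal)
        (norm_two v) ih
      have h2 := ih.sub h1
      rw [Finset.prod_insert hv]
      refine (h2.congr fun X => ?_).trans (le_of_eq ?_)
      · rw [count_step hv X]
        push_cast
        ring
      · congr 1
        ring

theorem t_SIEVE : S_SIEVE := by
  intro F _ _
  obtain ⟨c, hc, h⟩ := sieve_aux F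
  refine ⟨c, hc, fun M => (h M).congr fun X => ?_⟩
  rw [← Nat.card_coe_set_eq]
  rfl

lemma large_sum {f : HeightOneSpectrum (𝓞 F) → ℝ} (hf : ∀ v, 0 ≤ f v)
    {P : HeightOneSpectrum (𝓞 F) → Prop} (S : Finset (HeightOneSpectrum (𝓞 F)))
    (h : ¬ Summable (fun v : {v : HeightOneSpectrum (𝓞 F) // P v} => f v)) (c : ℝ) :
    ∃ M : Finset (HeightOneSpectrum (𝓞 F)), (∀ v ∈ M, P v ∧ v ∉ S) ∧ c < ∑ v ∈ M, f v := by
  classical
  by_contra hcon
  push Not at hcon
  apply h
  refine summable_of_sum_le (c := c + ∑ v ∈ S, f v) (fun v => hf v) fun u => ?_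
  set U := u.map (Function.Embedding.subtype P) with hU
  have e1 : ∑ x ∈ u, f x = ∑ v ∈ U, f v := by
    rw [hU, Finset.sum_map]
    rfl
  have e2 : ∑ v ∈ U, f v = ∑ v ∈ U \ S, f v + ∑ v ∈ U ∩ S, f v := by
    rw [← Finset.sum_union]
    · congr 1
      exact (Finset.sdiff_union_inter U S).symm
    · exact Finset.disjoint_sdiff_inter U S
  have e3 : ∑ v ∈ U \ S, f v ≤ c := by
    refine hcon _ fun v hv => ?_
    rw [Finset.mem_sdiff] at hv
    refine ⟨?_, hv.2⟩
    have h1 := hv.1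
    rw [hU, Finset.mem_map] at h1
    obtain ⟨w, _, rfl⟩ := h1
    exact w.2
  have e4 : ∑ v ∈ U ∩ S, f v ≤ ∑ v ∈ S, f v :=
    Finset.sum_le_sum_of_subset_of_nonneg Finset.inter_subset_right fun v _ _ => hf v
  rw [e1, e2]
  linarith

theorem t_DENS : S_DENS := by
  classical
  intro F _ _ S P hP Q hQ
  obtain ⟨c, hc, h⟩ := sieve_aux F
  have hf : ∀ v : HeightOneSpectrum (𝓞 F), 0 < 1 - ((Ideal.absNorm v.asIdeal : ℝ))⁻¹ := by
    intro v
    have h1 : (2 : ℝ) ≤ Ideal.absNorm v.asIdeal := by exact_mod_cast norm_two v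
    have h2 : ((Ideal.absNorm v.asIdeal : ℝ))⁻¹ < 1 := inv_lt_one_of_one_lt₀ (by linarith)
    linarith
  have hS : 0 < c * ∏ v ∈ S, (1 - ((Ideal.absNorm v.asIdeal : ℝ))⁻¹) :=
    mul_pos hc (Finset.prod_pos fun v _ => hf v)
  set B : ℕ → Set (Ideal (𝓞 F)) := fun X => {a | a ∈ Ss S X ∧ Q a} with hB
  have hBfin : ∀ X, (B X).Finite := fun X => (Ss_fin S X).subset fun a ha => ha.1
  have hBle : ∀ X, (B X).ncard ≤ (Ss S X).ncard := fun X =>
    Set.ncard_le_ncard (fun a ha => ha.1) (Ss_fin S X)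
  suffices h1 : Tendsto (fun X : ℕ => ((B X).ncard : ℝ) / ((Ss S X).ncard : ℝ)) atTop (𝓝 1) by
    refine h1.congr fun X => ?_
    rw [← Nat.card_coe_set_eq, ← Nat.card_coe_set_eq]
    rfl
  rw [tendsto_order]
  constructor
  · intro a ha
    obtain ⟨M, hM, hsum⟩ := large_sum (f := fun v => ((Ideal.absNorm v.asIdeal : ℝ))⁻¹)
      (fun v => by positivity) S hP (-Real.log (1 - a))
    have hprod : ∏ v ∈ M, (1 - ((Ideal.absNorm v.asIdeal : ℝ))⁻¹) < 1 - a := by
      calc ∏ v ∈ M, (1 - ((Ideal.absNorm v.asIdeal : ℝ))⁻¹)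
          ≤ ∏ v ∈ M, Real.exp (-((Ideal.absNorm v.asIdeal : ℝ))⁻¹) := by
            refine Finset.prod_le_prod (fun v _ => (hf v).le) fun v _ => ?_
            have := Real.add_one_le_exp (-((Ideal.absNorm v.asIdeal : ℝ))⁻¹)
            linarith
        _ = Real.exp (-∑ v ∈ M, ((Ideal.absNorm v.asIdeal : ℝ))⁻¹) := by
            rw [← Real.exp_sum, Finset.sum_neg_distrib]
        _ < Real.exp (Real.log (1 - a)) := Real.exp_lt_exp.2 (by linarith)
        _ = 1 - a := Real.exp_log (by linarith)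
    have hdisj : Disjoint S M := by
      rw [Finset.disjoint_right]
      exact fun v hv => (hM v hv).2
    have hlim := (h (S ∪ M)).div (h S) hS.ne'
    rw [Finset.prod_union hdisj, ← mul_assoc, mul_div_cancel_left₀ _ hS.ne'] at hlim
    have hev := hlim.eventually (gt_mem_nhds hprod)
    have hpos := (h S).eventually (lt_mem_nhds hS)
    filter_upwards [hev, hpos] with X h1 h2
    have hX : (X : ℝ) ≠ 0 := by
      intro h0
      rw [h0, div_zero] at h2
      exact lt_irrefl _ h2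
    have hXpos : (0 : ℝ) < X := lt_of_le_of_ne (Nat.cast_nonneg X) (Ne.symm hX)
    have hA : (0 : ℝ) < (Ss S X).ncard := by
      by_contra h3
      have h4 : ((Ss S X).ncard : ℝ) = 0 := le_antisymm (not_lt.1 h3) (Nat.cast_nonneg _)
      rw [h4, zero_div] at h2
      exact lt_irrefl _ h2
    have h3 : ((Ss (S ∪ M) X).ncard : ℝ) / (X : ℝ) / (((Ss S X).ncard : ℝ) / X) =
        ((Ss (S ∪ M) X).ncard : ℝ) / ((Ss S X).ncard : ℝ) := by
      field_simp
    rw [Pi.div_apply, h3, div_lt_iff₀ hA] at h1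
    have h4 : (Ss S X).ncard ≤ (B X).ncard + (Ss (S ∪ M) X).ncard := by
      have h5 : Ss S X ⊆ B X ∪ Ss (S ∪ M) X := by
        intro b hb
        by_cases hbM : ∀ v ∈ M, ¬ v.asIdeal ∣ b
        · refine Or.inr ⟨hb.1, hb.2.1, fun v hv => ?_⟩
          rcases Finset.mem_union.1 hv with hv | hv
          · exact hb.2.2 v hv
          · exact hbM v hv
        · push Not at hbM
          obtain ⟨v, hv, hvb⟩ := hbM
          exact Or.inl ⟨hb, hQ b hb.1 hb.2.2 ⟨v, (hM v hv).1, hvb⟩⟩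
      exact (Set.ncard_le_ncard h5 ((hBfin X).union (Ss_fin _ _))).trans
        (Set.ncard_union_le _ _)
    have h5 : ((Ss S X).ncard : ℝ) ≤ (B X).ncard + (Ss (S ∪ M) X).ncard := by exact_mod_cast h4
    rw [lt_div_iff₀ hA]
    nlinarith
  · intro a ha
    refine Eventually.of_forall fun X => lt_of_le_of_lt ?_ ha
    exact div_le_one_of_le₀ (by exact_mod_cast hBle X) (Nat.cast_nonneg _)

end Pool.Agent.K3h33.RS
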